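import Pool.Agent.N188.FC.Third

set_option autoImplicit false

/-!
# The members without the unique half-frequent element

Let `F` be a finite union-closed family and let `x` be the only element lying in at least half of the
members. The question is whether all nonempty members contain `x`. Here: for every nonempty finite set
`S` with `x ∉ S` at most `2 ^ (|S| - 1) - |S|` nonempty members of `F` are contained in `S`. (By the
theorem behind `MP_9bc572_co.DenseInside`, helper188.) More generally let `G` be a family of nonempty
sets not containing `x`, closed under adding to members of `F`.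
-/

namespace Pool.Agent.Results.MP_ff7426_co.FewInside

open Finset

theorem result {α : Type*} [DecidableEq α] (F : Finset (Finset α)) (x : α)
    (hF : ∀ A ∈ F, ∀ B ∈ F, A ∪ B ∈ F)
    (hx : ∀ y, F.card ≤ 2 * (F.filter (fun A => y ∈ A)).card ↔ y = x)
    (S : Finset α) (hS : S.Nonempty) (hxS : x ∉ S) :
    3 * (F.filter (fun A => A ⊆ S ∧ A.Nonempty)).card + 3 * S.card / 2 ≤ 2 ^ S.card + 1 := by
  by_contra hcon
  rw [not_le] at hcon
  obtain ⟨n, hn⟩ : ∃ n, S.card = n + 1 := ⟨S.card - 1, by
    have := hS.card_pos; omega⟩
  have hfil : ((F.filter (fun A => A ⊆ S)).filter (fun B => B.Nonempty)) =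
      F.filter (fun A => A ⊆ S ∧ A.Nonempty) := filter_filter _ _ _
  obtain ⟨y, hy, hy2⟩ := Pool.Agent.N188.FC.density_third hF n S (F.filter (fun A => A ⊆ S)) hn
    (fun B hB => (mem_filter.1 hB).2) (fun A hA B hB => hF A hA B (mem_filter.1 hB).1) (by
      rw [hfil]
      omega)
  have := (hx y).1 hy2
  rw [this] at hy
  exact hxS hy

end Pool.Agent.Results.MP_ff7426_co.FewInside
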